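import Mathlib
import Pool.Agent.N502.IO.Main

/-!
# Posets generated by ordinal sums and isolated elements: the exact order of `1/2 - δ` is `1 / w`

Let `G_m` be the class of the posets which are obtained from posets with at most `m` elements by
ordinal sums and by adding isolated elements, and let `d_m(w)` be the infimum of the balance
constants of the posets of width `w` in `G_m`. Then `1 / (12 w - 8) ≤ 1/2 - d_m(w)` for `w ≥ 1`,
`1/2 - d_m(w) ≤ 1000 √m / w` for `w ≥ 2 m`, and `d_m(w) < d_m(v)` for all `v ≥ 12000 m w`.

For the series-parallel interval orders (they are in `G_1`)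
`1 / (12 w - 8) ≤ 1/2 - d(w) ≤ 100 / w`, and `d(w) < d(v)` for all `v ≥ 1200 w`.

For all posets `1/2 - δ_w` is at least `c log w / w` (starting result `LogRate`, whose posets are
obtained by the same two operations from half graphs), so that the restriction on the size of the
building blocks cannot be dropped.

Proof of the upper bound. Let all incomparable pairs be `f`-unbalanced. We use the potential
`Γ = ∫ √(distance of p to the set of the average heights) dp`, `0 ≤ p ≤ n + 1`. It is subadditive for
ordinal sums. Adding an isolated element to a poset with `n - 1` elements multiplies it by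
`(1 + 1/n)^(3/2)`, but the new element is put in the middle of a gap of length `2 f n` between the
average heights, so that `Γ` decreases by `c (f n)^(3/2)`. Since the poset with `n - 1` elements is
an ordinal sum of at least two parts or small (otherwise there are twins), `Γ` stays below `C n`
minus the sum of all these decreases. Hence the cardinalities `n` of the nested sequence of posets at
which an isolated element is added, which determine the width, satisfy `∑ (f n)^(3/2) ≤ C n`: there
are at most `C / f` of them.
-/

set_option autoImplicit false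

namespace Pool.Agent.Results.MP_c890a7_co.GeneratedPosets

open Pool.Agent.N502.IO
open Pool.Agent.TH447.KS (IsIntervalOrder)
open Pool.Agent.H931R3.Bal (HasWidth SeriesParallel)
open Pool.Agent.H13R3.WB (balance)

theorem result :
    (∀ m : ℕ, 1 ≤ m →
      (∀ w : ℕ, 1 ≤ w → 1 / (12 * (w : ℝ) - 8) ≤ 1 / 2 - dG m w) ∧
      (∀ w : ℕ, 2 * m ≤ w → 1 / 2 - dG m w ≤ 1000 * Real.sqrt m / w ∧
        ∀ (P : Type) [Fintype P] [PartialOrder P], Gen m P → HasWidth P w →
          1 / 2 - 1000 * Real.sqrt m / w ≤ balance P) ∧
      ∀ w v : ℕ, 1 ≤ w → 12000 * m * w ≤ v → dG m w < dG m v) ∧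
    ∀ w : ℕ, 1 ≤ w →
      (∀ (P : Type) [Fintype P] [PartialOrder P], SeriesParallel P → IsIntervalOrder P →
        HasWidth P w → 1 / 2 - 100 / (w : ℝ) ≤ balance P) ∧
      1 / (12 * (w : ℝ) - 8) ≤ 1 / 2 - dSI w ∧ 1 / 2 - dSI w ≤ 100 / (w : ℝ) ∧
      ∀ v : ℕ, 1200 * w ≤ v → dSI w < dSI v := by
  refine ⟨fun m hm => ⟨fun w hw => by linarith [dG_le hm hw], fun w hw => ⟨by
    linarith [dG_ge hm hw], fun P _ _ h1 h2 => ?_⟩, fun w v hw hv => dG_growth hm hw hv⟩, ?_⟩
  · obtain ⟨⟨A, hA, hAw⟩, _⟩ := h2
    exact gen_balance m hm P h1 hw A hA hAw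
  · intro w hw
    refine ⟨fun P _ _ h1 h2 h3 => ?_, ?_, ?_, fun v hv => dSI_growth hw hv⟩
    · obtain ⟨⟨A, hA, hAw⟩, _⟩ := h3
      exact sp_balance P h1 h2 hw A hA hAw
    · linarith [dSI_le hw]
    · linarith [dSI_ge hw]

end Pool.Agent.Results.MP_c890a7_co.GeneratedPosets
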