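import Mathlib
import Pool.Agent.N502.IO.Main

/-!
# Interval orders with large monotone antichains: the exact order of `1/2 - δ` is `log w / w`

Two elements are nested if one of them has more elements below it and more elements above it, and
shifted if one has more elements below it and fewer above it. For two incomparable elements of an
interval order always at least one of the two is the case.

1. If an interval order of width `w` has an antichain of `s` elements which are pairwise nested, or
   pairwise shifted, then its balance constant is at least `1/2 - 3 (1 + log w) / s`.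
2. So it is at least `1/2 - 3 k (1 + log w) / w` if the interval order has a representation by
   intervals of at most `k` lengths, and more generally (class `M_k`) if every antichain `A` has a
   pairwise nested or pairwise shifted subset with at least `|A| / k` elements.
3. For every `k ≥ 2` this is the exact order: the infimum `d_k(w)` of the balance constants of the
   posets of width `w` in `M_k` satisfies
   `(1 + log w) / (40000 w) ≤ 1/2 - d_k(w) ≤ 3 k (1 + log w) / w`, and `d_k(w) < d_k(v)` for all
   `v ≥ K_k w`.

For all interval orders the known lower bound is `1/2 - 3 (1 + log w) / √w` (starting result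
`IntervalOrderGrowth`). The posets of the starting result `LogRate` are in `M_2`, so that within
`M_k` its bound cannot be improved by more than a constant factor.
-/

set_option autoImplicit false

namespace Pool.Agent.Results.MP_c890a7_co.MonotoneAntichains

open Pool.Agent.N502.IO
open Pool.Agent.TH447.KS (IsIntervalOrder)
open Pool.Agent.H931R3.Bal (HasWidth)
open Pool.Agent.H13R3.WB (balance)

theorem result :
    (∀ (P : Type) [Fintype P] [PartialOrder P], IsIntervalOrder P → ∀ w : ℕ, HasWidth P w →
      ∀ B : Finset P, IsAntichain (· ≤ ·) (B : Set P) → Mono B → 1 ≤ B.card →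
        1 / 2 - 3 * (1 + Real.log w) / B.card ≤ balance P) ∧
    (∀ k w : ℕ, 1 ≤ w → ∀ (P : Type) [Fintype P] [PartialOrder P],
      (IsIntervalOrder P ∧ MonoAnti k P) ∨ LengthsLE k P → HasWidth P w →
        1 / 2 - 3 * k * (1 + Real.log w) / w ≤ balance P) ∧
    (∀ k : ℕ, 2 ≤ k →
      (∀ w : ℕ, 1 ≤ w → (1 + Real.log w) / (40000 * w) ≤ 1 / 2 - dM k w ∧
        1 / 2 - dM k w ≤ 3 * k * (1 + Real.log w) / w) ∧
      ∃ K : ℕ, ∀ w v : ℕ, 1 ≤ w → K * w ≤ v → dM k w < dM k v) := by
  refine ⟨fun P _ _ hP w hw B hB hm h1 => mono_balance P hP w hw B hB hm h1, ?_, ?_⟩
  · rintro k w hw P _ _ (⟨h1, h2⟩ | h) h3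
    · exact class_balance k P h1 h2 w hw h3
    · exact class_balance k P (lengths_interval h) (lengths_mono h) w hw h3
  · intro k hk
    refine ⟨fun w hw => ⟨?_, ?_⟩, dM_growth hk⟩
    · linarith [dM_le' hk hw]
    · linarith [dM_ge hk hw]

end Pool.Agent.Results.MP_c890a7_co.MonotoneAntichains
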