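import Mathlib
import Pool.Agent.N502.FR.Fin2

/-!
# Rooted forests: `1/2 - δ ≤ 4 exp (- √(log w) / 10)`

A rooted forest is a poset in which the elements above any given element form a chain. Every rooted
forest of width `w` has balance constant at least `1/2 - 4 exp (- √(log w) / 10)`. With `d_F(w)` the
infimum of the balance constants of the rooted forests of width `w`, moreover
`1 / (12 w - 8) ≤ 1/2 - d_F(w)`, and `d_F(w) < d_F(v)` for all `v ≥ exp (3600 log² (w + 1))`.

Proof. Turn the forest upside down (roots first). The probability that `x` comes before `y` in a
random linear extension is the probability that a sum of independent exponential variables, whose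
rates are the numbers of elements above the elements that are below `x` but not below `y`, is smaller
than the corresponding sum for `y` (both satisfy the same recursion). The rates on a path are distinct
integers. By Fourier inversion this probability minus one half is
`-(1/π) ∫ |φ_x φ_y| sin (θ_x - θ_y) dt / t`, `θ = ∑ arctan (t / h)`. Hence it is small if the paths to
two leaves `x`, `y` have the same small rates and nearly the same odd power sums of the inverses of
the large rates; `O(m)` power sums and `4 m + 1` small rates suffice for an error `2^(-m)`, so that a
pigeonhole argument applies to more than `2^(24 m²)` leaves. The means (first power sums) are not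
bounded a priori, but if they differ by more than `m + 3` then on the path to one of the two leaves
there is an element `u` such that the pair formed by it and the other leaf is balanced.
-/

set_option autoImplicit false

namespace Pool.Agent.Results.MP_c890a7_co.RootedForests

open Pool.Agent.N502.FR (TFor dF)
open Pool.Agent.H931R3.Bal (HasWidth)
open Pool.Agent.H13R3.WB (balance)

theorem result :
    (∀ (w : ℕ) (P : Type) [Fintype P] [PartialOrder P], 1 ≤ w → TFor P → HasWidth P w →
      1 / 2 - 4 * Real.exp (-(√(Real.log w) / 10)) ≤ balance P) ∧
    (∀ w : ℕ, 1 ≤ w → 1 / (12 * (w : ℝ) - 8) ≤ 1 / 2 - dF w ∧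
      1 / 2 - dF w ≤ 4 * Real.exp (-(√(Real.log w) / 10))) ∧
    ∀ w v : ℕ, 1 ≤ w → Real.exp (3600 * Real.log ((w : ℝ) + 1) ^ 2) ≤ v → dF w < dF v := by
  refine ⟨fun w P _ _ hw h1 h2 => Pool.Agent.N502.FR.forest_balance
    Pool.Agent.N502.FR.leaves P h1 hw h2, fun w hw => ⟨?_, ?_⟩, fun w v hw hv =>
    Pool.Agent.N502.FR.dF_growth Pool.Agent.N502.FR.leaves hw hv⟩
  · linarith [Pool.Agent.N502.FR.dF_le hw]
  · linarith [Pool.Agent.N502.FR.dF_ge Pool.Agent.N502.FR.leaves hw]

end Pool.Agent.Results.MP_c890a7_co.RootedForests
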